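import Pool.Agent.Helper317.Sacks.Sig
import Pool.Agent.H869R3.DM.Std

/-!
The cuts of the ultrapower of the natural numbers closed under all computable functions: bounded
and `Σ_1` formulas in both languages.
-/

namespace Pool.Agent.H869R3.UP

open FirstOrder FirstOrder.Language Filter
open Pool.Agent.Helper626
open Pool.Agent.Helper317.Sacks
open Pool.Agent.Helper446.RE
open Pool.Agent.H869R3.DM (cp_and cp_or cp_imp cp_all cp_ex cp_bool c_find)

/-- terms in the larger language -/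
theorem lift_term {e : Bool} {n : ℕ} (t : Trm e n) :
    ∃ t' : Trm true n, ∀ (M : Type) [ArithOps M] (v : Fin n → M), tval t' v = tval t v := by
  unfold tval
  induction t with
  | var a => exact ⟨Term.var a, fun M _ v => rfl⟩
  | @func l f ts ih =>
    change AFunc e l at f
    cases f with
    | zero => exact ⟨Term.func (L := LA true) (l := 0) AFunc.zero Fin.elim0, fun M _ v => rfl⟩
    | one => exact ⟨Term.func (L := LA true) (l := 0) AFunc.one Fin.elim0, fun M _ v => rfl⟩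
    | add =>
      obtain ⟨t1, h1⟩ := ih 0
      obtain ⟨t2, h2⟩ := ih 1
      exact ⟨Term.func (L := LA true) (l := 2) AFunc.add ![t1, t2],
        fun M _ v => congrArg₂ (· + ·) (h1 M v) (h2 M v)⟩
    | mul =>
      obtain ⟨t1, h1⟩ := ih 0
      obtain ⟨t2, h2⟩ := ih 1
      exact ⟨Term.func (L := LA true) (l := 2) AFunc.mul ![t1, t2],
        fun M _ v => congrArg₂ (· * ·) (h1 M v) (h2 M v)⟩
    | pow h =>
      obtain ⟨t1, h1⟩ := ih 0
      obtain ⟨t2, h2⟩ := ih 1
      exact ⟨Term.func (L := LA true) (l := 2) (AFunc.pow rfl) ![t1, t2],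
        fun M _ v => congrArg₂ (· ^ ·) (h1 M v) (h2 M v)⟩

/-- bounded formulas in the larger language -/
theorem lift_delta {e : Bool} {n : ℕ} {φ : Fml e n} (h : IsDelta0 φ) :
    ∃ φ' : Fml true n, IsDelta0 φ' ∧
      ∀ (M : Type) [ArithOps M] (v : Fin n → M), Sat φ' v ↔ Sat φ v := by
  induction h with
  | falsum => exact ⟨⊥, IsDelta0.falsum, fun M _ v => Iff.rfl⟩
  | eq s t =>
    obtain ⟨s', hs⟩ := lift_term s
    obtain ⟨t', ht⟩ := lift_term t
    exact ⟨s'.bdEqual t', IsDelta0.eq s' t', fun M _ v => by rw [sat_eq, sat_eq, hs, ht]⟩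
  | lt s t =>
    obtain ⟨s', hs⟩ := lift_term s
    obtain ⟨t', ht⟩ := lift_term t
    exact ⟨ltF s' t', IsDelta0.lt s' t', fun M _ v => by rw [sat_lt, sat_lt, hs, ht]⟩
  | imp _ _ ih1 ih2 =>
    obtain ⟨φ, hφ, h1⟩ := ih1
    obtain ⟨ψ, hψ, h2⟩ := ih2
    exact ⟨φ.imp ψ, hφ.imp hψ, fun M _ v => by rw [sat_imp, sat_imp, h1, h2]⟩
  | ball t _ ih =>
    obtain ⟨t', ht⟩ := lift_term t
    obtain ⟨φ, hφ, h1⟩ := ih
    refine ⟨_, IsDelta0.ball t' hφ, fun M _ v => ?_⟩
    rw [sat_ball, sat_ball, ht]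
    simp only [h1]

/-- the matrix of a `Σ_1` formula as a relation on the natural numbers -/
theorem sigma_rel {e : Bool} {n : ℕ} {φ : Fml e n} (h : IsSigma 1 φ) :
    ∃ R : ℕ → ℕ → Prop, PrimrecRel R ∧ (∀ v : Fin n → ℕ, Sat φ v ↔ ∃ w, R (enc n v) w) ∧
      ∀ (F : Set (ℕ → ℕ)) (U : Ultrafilter ℕ) (B : ℕ → ℕ → ℕ) [Fact (Adm F U B)]
        (x : Fin n → Mod F U B),
        (Sat φ x ↔ ∃ w : Mod F U B, ∀ᶠ d in (U : Filter ℕ),
          R (enc n (fun i => rep (x i) d)) (rep w d)) := by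
  obtain ⟨r, ψ, hψ, rfl⟩ := h
  have hψ' : IsDelta0 ψ := hψ
  obtain ⟨θ, hθ, hθψ⟩ := lift_delta hψ'
  have h1 : PrimrecPred (fun z : ℕ =>
      Sat ψ (Fin.append (dec n z.unpair.1) (dec r z.unpair.2) : Fin (n + r) → ℕ)) := by
    refine (D0.of_delta0 hψ').primrec
      (fun z => Fin.append (dec n z.unpair.1) (dec r z.unpair.2)) ?_
    intro i
    refine Fin.addCases (fun i => ?_) (fun i => ?_) i
    · simp only [Fin.append_left]
      exact (dec_primrec n i).comp (Primrec.fst.comp Primrec.unpair)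
    · simp only [Fin.append_right]
      exact (dec_primrec r i).comp (Primrec.snd.comp Primrec.unpair)
  refine ⟨fun a b => Sat ψ (Fin.append (dec n a) (dec r b) : Fin (n + r) → ℕ), ?_, ?_, ?_⟩
  · have h2 : PrimrecPred (fun z : ℕ × ℕ => Sat ψ (Fin.append (dec n (Nat.pair z.1 z.2).unpair.1)
        (dec r (Nat.pair z.1 z.2).unpair.2) : Fin (n + r) → ℕ)) :=
      h1.comp (Primrec₂.natPair.comp Primrec.fst Primrec.snd)
    refine h2.of_eq ?_
    rintro ⟨a, b⟩
    simp only [Nat.unpair_pair]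
  · intro v
    rw [sat_exs]
    constructor
    · rintro ⟨w, hw⟩
      refine ⟨enc r w, ?_⟩
      beta_reduce
      rw [dec_enc, dec_enc]
      exact hw
    · rintro ⟨b, hb⟩
      rw [dec_enc] at hb
      exact ⟨_, hb⟩
  · intro F U B _ x
    rw [sat_exs]
    have key : ∀ w : Fin r → Mod F U B, Sat ψ (Fin.append x w) ↔ ∀ᶠ d in (U : Filter ℕ),
        Sat ψ (Fin.append (fun i => rep (x i) d) (fun i => rep (w i) d)) := by
      intro w
      rw [← hθψ, los_delta hθ]
      simp only [rep_append, hθψ]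
    constructor
    · rintro ⟨w, hw⟩
      rw [key] at hw
      obtain ⟨z, hz⟩ := exists_enc r w
      refine ⟨z, ?_⟩
      filter_upwards [hw, hz] with d h1 h2
      rw [h2, dec_enc, dec_enc]
      exact h1
    · rintro ⟨b, hb⟩
      have hex : ∀ i : Fin r, ∃ y : Mod F U B, ∀ᶠ d in (U : Filter ℕ),
          rep y d = dec r (rep b d) i := fun i => exists_comp b (dec_primrec r i).to_comp
      choose w hw using hex
      refine ⟨w, ?_⟩
      rw [key]
      have hall : ∀ᶠ d in (U : Filter ℕ), ∀ i, rep (w i) d = dec r (rep b d) i := by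
        rw [Filter.eventually_all]
        exact hw
      filter_upwards [hb, hall] with d h1 h2
      rw [dec_enc] at h1
      have h3 : (fun i => rep (w i) d) = dec r (rep b d) := funext h2
      rw [h3]
      exact h1

/-- recursively enumerable relations on the natural numbers are `Σ_1` -/
theorem re_S1 {e : Bool} {n : ℕ} {P : ℕ → Prop} (hP : REPred P) :
    S1 e (fun v : Fin n → ℕ => P (enc n v)) := by
  have h4 : Nat.Partrec (fun z => (Part.assert (P z) fun _ => Part.some ()).map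
      (fun _ => (0 : ℕ))) := by
    exact Partrec.nat_iff.1 (Partrec.map hP (Computable.const 0).to₂)
  refine (S1.ex (Q := fun v c => Pool.Agent.Helper626.enc n v = c ∧ ∃ y,
    y ∈ ((Part.assert (P c) fun _ => Part.some ()).map (fun _ => (0 : ℕ)) : Part ℕ))
    (S1.and (S1.encT (t := fun i w => w i.castSucc) (fun i => T0.var _) T0.last)
      (S1.ex ((S1.of_partrec h4).app (R := fun x y => y ∈ ((Part.assert (P x) fun _ =>
        Part.some ()).map (fun _ => (0 : ℕ)) : Part ℕ)) T0.last.init T0.last)))).of_iff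
    fun v => ?_
  constructor
  · intro h
    refine ⟨_, rfl, 0, ?_⟩
    rw [Part.mem_map_iff]
    exact ⟨(), by simpa [Part.mem_assert_iff] using h, rfl⟩
  · rintro ⟨c, rfl, y, h⟩
    rw [Part.mem_map_iff] at h
    obtain ⟨_, h, -⟩ := h
    simpa [Part.mem_assert_iff] using h

/-- recursively enumerable relations on the natural numbers are defined by `Σ_1` formulas -/
theorem re_syn (e : Bool) (n : ℕ) {P : ℕ → Prop} (hP : REPred P) :
    ∃ φ : Fml e n, IsSigma 1 φ ∧ ∀ v : Fin n → ℕ, Sat φ v ↔ P (enc n v) :=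
  (re_S1 hP).syn

/-- total computable search -/
theorem cp_search {R : ℕ → ℕ → Prop} (hR : ComputablePred fun p : ℕ × ℕ => R p.1 p.2)
    (h : ∀ k, ∃ z, R k z) : ∃ ζ : ℕ → ℕ, Computable ζ ∧ ∀ k, R k (ζ k) := by
  classical
  exact ⟨fun k => Nat.find (h k), c_find (p := fun k z => R k z) hR (fun k => Nat.find_spec (h k))
    fun k z hz => Nat.find_min (h k) hz, fun k => Nat.find_spec (h k)⟩

/-- computable relations give `Σ_1` formulas which are correct in the models -/
theorem sigma_common (e : Bool) (n : ℕ) {R : ℕ → ℕ → Prop}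
    (hR : ComputablePred fun p : ℕ × ℕ => R p.1 p.2) :
    ∃ φ : Fml e n, IsSigma 1 φ ∧ ∀ (F : Set (ℕ → ℕ)) (U : Ultrafilter ℕ) (B : ℕ → ℕ → ℕ)
      [Fact (Adm F U B)] (x : Fin n → Mod F U B),
      (Sat φ x ↔ ∃ w : Mod F U B, ∀ᶠ d in (U : Filter ℕ),
        R (enc n (fun i => rep (x i) d)) (rep w d)) := by
  have hP : REPred (fun z : ℕ => R z.unpair.1 z.unpair.2) :=
    (cp_comp (p := fun p : ℕ × ℕ => R p.1 p.2) hR (f := fun z : ℕ => z.unpair) (by fun_prop)).to_re
  obtain ⟨P', hP', h⟩ := (re_S1 (e := e) (n := n + 1) hP)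
  obtain ⟨θ, hθ, hθ'⟩ := hP'.syn
  obtain ⟨θ', hθ2, hθ3⟩ := lift_delta hθ
  have henc : ∀ v : Fin (n + 1) → ℕ, Nat.unpair (enc (n + 1) v) =
      (enc n (Fin.init v), v (Fin.last n)) := by
    intro v
    change Nat.unpair (Nat.pair _ _) = _
    rw [Nat.unpair_pair]
  have henc2 : ∀ (m : ℕ) (g : ℕ → (Fin m → ℕ)), (∀ i, Primrec (fun k => g k i)) →
      Primrec (fun k => enc m (g k)) := by
    intro m
    induction m with
    | zero => intro g _; exact Primrec.const 0
    | succ m ih =>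
      intro g hg
      exact Primrec₂.natPair.comp (ih (fun k => Fin.init (g k)) (fun i => hg i.castSucc))
        (hg (Fin.last m))
  have hr : Primrec (fun k => enc (n + 1) (dec (n + 1) k)) :=
    henc2 (n + 1) (dec (n + 1)) (dec_primrec (n + 1))
  have hrc := hr.to_comp
  have hrel : ComputablePred (fun p : ℕ × ℕ =>
      (¬ R (enc (n + 1) (dec (n + 1) p.1)).unpair.1 (enc (n + 1) (dec (n + 1) p.1)).unpair.2) ∨
      P' (Fin.snoc (dec (n + 1) p.1) p.2)) := by
    have h1 : PrimrecPred (fun c : ℕ => P' (Fin.snoc (dec (n+1) c.unpair.1) c.unpair.2)) := by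
      refine hP'.primrec (fun z => Fin.snoc (dec (n+1) z.unpair.1) z.unpair.2) ?_
      intro i
      refine Fin.lastCases ?_ (fun i => ?_) i
      · simp only [Fin.snoc_last]
        exact Primrec.snd.comp Primrec.unpair
      · simp only [Fin.snoc_castSucc]
        exact (dec_primrec (n+1) i).comp (Primrec.fst.comp Primrec.unpair)
    have h2 : PrimrecPred (fun z : ℕ × ℕ => P' (Fin.snoc (dec (n+1) z.1) z.2)) := by
      refine (h1.comp (Primrec₂.natPair.comp Primrec.fst Primrec.snd)).of_eq ?_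
      intro x
      simp
    refine cp_or ?_ h2.computablePred
    exact (cp_comp (p := fun p : ℕ × ℕ => R p.1 p.2) hR
      (f := fun z : ℕ × ℕ => (enc (n + 1) (dec (n + 1) z.1)).unpair)
      (Computable.unpair.comp (hrc.comp Computable.fst))).not
  obtain ⟨ζ, hζ, hζ'⟩ := cp_search (R := fun k z =>
      (¬ R (enc (n + 1) (dec (n + 1) k)).unpair.1 (enc (n + 1) (dec (n + 1) k)).unpair.2) ∨
      P' (Fin.snoc (dec (n + 1) k) z)) hrel (by
    intro k
    by_cases hk : R (enc (n + 1) (dec (n + 1) k)).unpair.1 (enc (n + 1) (dec (n + 1) k)).unpair.2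
    · obtain ⟨z, hz⟩ := (h (dec (n + 1) k)).1 hk
      exact ⟨z, Or.inr hz⟩
    · exact ⟨0, Or.inl hk⟩)
  refine ⟨exs 2 θ, ⟨2, θ, hθ, rfl⟩, fun F U B _ x => ?_⟩
  rw [sat_exs]
  have key : ∀ w z : Mod F U B, Sat θ (Fin.snoc (Fin.snoc x w : Fin (n + 1) → Mod F U B) z :
      Fin (n + 1 + 1) → Mod F U B) ↔ ∀ᶠ d in (U : Filter ℕ),
      P' (Fin.snoc (Fin.snoc (fun i => rep (x i) d) (rep w d) : Fin (n + 1) → ℕ) (rep z d)) := by
    intro w z
    rw [← hθ3, los_delta hθ2]
    refine eventually_congr (Eventually.of_forall fun d => ?_)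
    rw [hθ3, hθ', rep_snoc, rep_snoc]
  constructor
  · rintro ⟨W, hW⟩
    rw [sK_snoc2] at hW
    have h1 := (key _ _).1 hW
    refine ⟨W 0, ?_⟩
    filter_upwards [h1] with d hd
    have h5 := (h (Fin.snoc (fun i => rep (x i) d) (rep (W 0) d))).2 ⟨_, hd⟩
    beta_reduce at h5
    rw [henc, Fin.init_snoc, Fin.snoc_last] at h5
    exact h5
  · rintro ⟨w, hw⟩
    obtain ⟨k, hk⟩ := exists_enc (n+1) (Fin.snoc x w : Fin (n+1) → Mod F U B)
    obtain ⟨z, hz⟩ := exists_comp k hζ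
    refine ⟨![w, z], ?_⟩
    rw [sK_snoc2]
    refine (key w z).2 ?_
    filter_upwards [hw, hk, hz] with d h1 h2 h3
    rw [rep_snoc] at h2
    have h4 := hζ' (rep k d)
    rw [h2, dec_enc, henc, Fin.init_snoc, Fin.snoc_last] at h4
    rcases h4 with h4 | h4
    · exact absurd h1 h4
    · rw [h3, h2]
      exact h4

section Mod

variable {F : Set (ℕ → ℕ)} {U : Ultrafilter ℕ} {B : ℕ → ℕ → ℕ} [hA : Fact (Adm F U B)]

/-- Łoś for bounded formulas in both languages -/
theorem los {e : Bool} {n : ℕ} {φ : Fml e n} (h : IsDelta0 φ) (x : Fin n → Mod F U B) :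
    Sat φ x ↔ ∀ᶠ d in (U : Filter ℕ), Sat φ (fun i => rep (x i) d) := by
  obtain ⟨φ', h1, h2⟩ := lift_delta h
  rw [← h2, los_delta h1]
  simp only [h2]

end Mod

section Univ

variable {U : Ultrafilter ℕ} {B : ℕ → ℕ → ℕ} [hA : Fact (Adm Set.univ U B)]

/-- induction for bounded formulas -/
theorem mod_ISigma (e : Bool) : ISigma e 0 (Mod Set.univ U B) := by
  classical
  intro m φ hφ p h0 hs x
  have hφ' : IsDelta0 φ := hφ
  by_contra hx
  rw [los hφ', ← Ultrafilter.eventually_not] at hx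
  simp only [rep_snoc] at hx
  let f : ℕ → ℕ := fun d =>
    if h : ∃ y, ¬ Sat φ (Fin.snoc (fun i => rep (p i) d) y) then Nat.find h else 0
  have hf : ∀ᶠ d in (U : Filter ℕ), (¬ Sat φ (Fin.snoc (fun i => rep (p i) d) (f d))) ∧
      (∀ y < f d, Sat φ (Fin.snoc (fun i => rep (p i) d) y)) ∧ f d ≤ rep x d := by
    filter_upwards [hx] with d hd
    have h : ∃ y, ¬ Sat φ (Fin.snoc (fun i => rep (p i) d) y) := ⟨_, hd⟩
    have h1 : f d = Nat.find h := dif_pos h
    rw [h1]
    refine ⟨Nat.find_spec h, fun y hy => ?_, Nat.find_min' h hd⟩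
    by_contra hcon
    exact Nat.find_min h hy hcon
  have hpre : IsPre Set.univ U B f :=
    (rep_pre x).of_le (Set.mem_univ _) (hf.mono fun d hd => hd.2.2)
  obtain ⟨y, hy⟩ := exists_rep f hpre
  have hny : ¬ Sat φ (Fin.snoc p y) := by
    rw [los hφ', ← Ultrafilter.eventually_not]
    filter_upwards [hf, hy] with d h1 h2
    rw [rep_snoc, h2]
    exact h1.1
  have hpre' : IsPre Set.univ U B (fun d => f d - 1) :=
    hpre.of_le (Set.mem_univ _) (Eventually.of_forall fun d => Nat.sub_le _ _)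
  obtain ⟨z, hz⟩ := exists_rep _ hpre'
  have hpos : ∀ᶠ d in (U : Filter ℕ), f d ≠ 0 := by
    by_contra hcon
    rw [← Ultrafilter.eventually_not] at hcon
    apply hny
    have : y = 0 := by
      rw [eq_iff]
      filter_upwards [hcon, hy, rep_zero (F := Set.univ) (U := U) (B := B)] with d h1 h2 h3
      rw [h2, h3]
      push Not at h1
      exact h1
    rw [this]
    exact h0
  have hsz : Sat φ (Fin.snoc p z) := by
    rw [los hφ']
    filter_upwards [hf, hz, hpos] with d h1 h2 h3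
    rw [rep_snoc, h2]
    exact h1.2.1 _ (by omega)
  have hzy : z + 1 = y := by
    rw [eq_iff]
    filter_upwards [hz, hy, hpos, rep_add z 1, rep_one (F := Set.univ) (U := U) (B := B)]
      with d h1 h2 h3 h4 h5
    rw [h4, h5, h1, h2]
    omega
  apply hny
  rw [← hzy]
  exact hs z hsz

theorem enc_snoc2 {m : ℕ} (v : Fin m → ℕ) (x y : ℕ) :
    enc (m + 2) (Fin.snoc (Fin.snoc v x : Fin (m + 1) → ℕ) y) =
      Nat.pair (Nat.pair (enc m v) x) y := by
  change Nat.pair (Nat.pair (enc m (Fin.init (Fin.init (Fin.snoc (Fin.snoc v x :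
    Fin (m + 1) → ℕ) y : Fin (m + 2) → ℕ) : Fin (m + 1) → ℕ)))
    ((Fin.init (Fin.snoc (Fin.snoc v x : Fin (m + 1) → ℕ) y : Fin (m + 2) → ℕ) :
      Fin (m + 1) → ℕ) (Fin.last m)))
    ((Fin.snoc (Fin.snoc v x : Fin (m + 1) → ℕ) y : Fin (m + 2) → ℕ) (Fin.last (m + 1))) = _
  rw [Fin.init_snoc, Fin.init_snoc, Fin.snoc_last, Fin.snoc_last]

/-- collection for `Σ_1` formulas -/
theorem mod_BSigma (hB : ∀ d, Monotone fun j => B j d)
    (hU : ∀ k, ∀ᶠ d in (U : Filter ℕ), k ≤ d) (e : Bool) : BSigma e 1 (Mod Set.univ U B) := by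
  classical
  intro m φ hφ p a h
  obtain ⟨R, hR, -, hRM⟩ := sigma_rel hφ
  have key : ∀ x y : Mod Set.univ U B,
      Sat φ (Fin.snoc (Fin.snoc p x : Fin (m + 1) → Mod Set.univ U B) y) ↔
      ∃ w : Mod Set.univ U B, ∀ᶠ d in (U : Filter ℕ),
        R (Nat.pair (Nat.pair (enc m fun i => rep (p i) d) (rep x d)) (rep y d)) (rep w d) := by
    intro x y
    rw [hRM]
    simp only [rep_snoc, enc_snoc2]
  simp only [key] at h ⊢
  let good : ℕ → ℕ → Prop := fun j d => ∀ x < rep a d, ∃ y ≤ B j d, ∃ w ≤ B j d,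
    R (Nat.pair (Nat.pair (enc m fun i => rep (p i) d) x) y) w
  have hgood : ∃ j, ∀ᶠ d in (U : Filter ℕ), good j d := by
    by_contra hcon
    push Not at hcon
    have hcon' : ∀ j, ∀ᶠ d in (U : Filter ℕ), ¬ good j d := hcon
    let J : ℕ → ℕ := fun d => Nat.findGreatest (fun j => ¬ good j d) d
    have hJ : ∀ j, ∀ᶠ d in (U : Filter ℕ), j ≤ J d ∧ ¬ good (J d) d := by
      intro j
      filter_upwards [hcon' j, hU j] with d h1 h2
      exact ⟨Nat.le_findGreatest h2 h1, Nat.findGreatest_spec (P := fun j => ¬ good j d) h2 h1⟩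
    have hx : ∀ᶠ d in (U : Filter ℕ), ∃ x, x < rep a d ∧ ∀ y ≤ B (J d) d, ∀ w ≤ B (J d) d,
        ¬ R (Nat.pair (Nat.pair (enc m fun i => rep (p i) d) x) y) w := by
      filter_upwards [hJ 0] with d hd
      have h1 := hd.2
      simp only [good] at h1
      push Not at h1
      obtain ⟨x, hx, h2⟩ := h1
      exact ⟨x, hx, h2⟩
    obtain ⟨f, hf⟩ := hx.choice
    obtain ⟨x, hx⟩ := exists_rep (F := Set.univ) (U := U) (B := B) f
      ((rep_pre a).of_le (Set.mem_univ _) (hf.mono fun d hd => hd.1.le))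
    obtain ⟨y, w, hw⟩ := h x (by
      rw [lt_iff]
      filter_upwards [hf, hx] with d h1 h2
      rw [h2]
      exact h1.1)
    obtain ⟨j1, h1⟩ := (rep_pre y).2
    obtain ⟨j2, h2⟩ := (rep_pre w).2
    obtain ⟨d, h3, h4, h5, h6, h7, h8⟩ :=
      (h1.and (h2.and (hw.and (hf.and (hx.and (hJ (max j1 j2))))))).exists
    rw [h7] at h5
    exact h6.2 _ (h3.trans (hB d ((le_max_left _ _).trans h8.1))) _
      (h4.trans (hB d ((le_max_right _ _).trans h8.1))) h5
  obtain ⟨j, hj⟩ := hgood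
  have hBj : IsPre Set.univ U B (B j) := ⟨Set.mem_univ _, j, Eventually.of_forall fun d => le_rfl⟩
  have hBj1 : IsPre Set.univ U B (fun d => B j d + 1) :=
    hBj.comp (g := fun n => n + 1) Computable.succ
  obtain ⟨t, ht⟩ := exists_rep _ hBj1
  refine ⟨t, fun x hx => ?_⟩
  have h1 : ∀ᶠ d in (U : Filter ℕ), ∃ q : ℕ × ℕ, q.1 ≤ B j d ∧ q.2 ≤ B j d ∧
      R (Nat.pair (Nat.pair (enc m fun i => rep (p i) d) (rep x d)) q.1) q.2 := by
    filter_upwards [hj, hx] with d h1 h2
    obtain ⟨y, hy, w, hw, h3⟩ := h1 _ h2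
    exact ⟨(y, w), hy, hw, h3⟩
  obtain ⟨f, hf⟩ := h1.choice
  obtain ⟨y, hy⟩ := exists_rep (F := Set.univ) (U := U) (B := B) (fun d => (f d).1)
    (hBj.of_le (Set.mem_univ _) (hf.mono fun d hd => hd.1))
  obtain ⟨w, hw⟩ := exists_rep (F := Set.univ) (U := U) (B := B) (fun d => (f d).2)
    (hBj.of_le (Set.mem_univ _) (hf.mono fun d hd => hd.2.1))
  refine ⟨y, ?_, w, ?_⟩
  · rw [lt_iff]
    filter_upwards [ht, hy, hf] with d h1 h2 h3
    rw [h1, h2]
    exact Nat.lt_succ_of_le h3.1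
  · filter_upwards [hy, hw, hf] with d h1 h2 h3
    rw [h1, h2]
    exact h3.2.2

end Univ

end Pool.Agent.H869R3.UP
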