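import Pool.Agent.Helper626.DegDefs

/-!
Turing reducibility between subsets of a model of arithmetic, in the form used for the problem.
-/

namespace Pool.Agent.H869R3.UP

open Pool.Agent.Helper626

/-- `A ≤_T B`: some c.e. set `Φ` of quadruples satisfies, for all `M`-finite `x` and `y`
(given by their codes): `x ⊆ A` and `y ∩ A = ∅` iff `(x, y, u, v) ∈ Φ` for some `M`-finite
`u ⊆ B` and `v` with `v ∩ B = ∅`. -/
def TLE (e : Bool) {M : Type} [ArithOps M] (A B : Set M) : Prop :=
  ∃ Φ : M → M → M → M → Prop, CE e Φ ∧ ∀ x y : M,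
    (fset x ⊆ A ∧ fset y ⊆ Aᶜ) ↔ ∃ u v : M, fset u ⊆ B ∧ fset v ⊆ Bᶜ ∧ Φ x y u v

/-- The subset of `M` defined by the parameter-free formula `φ` with one free variable. -/
def defSet {e : Bool} (φ : Fml e 1) (M : Type) [ArithOps M] : Set M := {x | Sat φ ![x]}

end Pool.Agent.H869R3.UP
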