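import Pool.Agent.H869R3.UP.Base
import Pool.Agent.H869R3.UP.Defs

/-!
Chains of enumeration times in the standard model.
-/

namespace Pool.Agent.H869R3.UP

open FirstOrder FirstOrder.Language Filter
open Pool.Agent.Helper626
open Pool.Agent.Helper446.RE
open Pool.Agent.H869R3.DM (cp_and cp_or cp_imp cp_all cp_ex cp_bool c_find)

/-- `b` is the successor of the least witness for `p` -/
def Tm (Q : ℕ → ℕ → Prop) (p b : ℕ) : Prop := (∃ w, w < b ∧ Q p w) ∧ ∀ w < b, Q p w → b ≤ w + 1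

theorem Tm.unique {Q : ℕ → ℕ → Prop} {p b b' : ℕ} (h : Tm Q p b) (h' : Tm Q p b') : b = b' := by
  obtain ⟨⟨w, hw, hq⟩, h1⟩ := h
  obtain ⟨⟨w', hw', hq'⟩, h1'⟩ := h'
  rcases lt_trichotomy b b' with h | h | h
  · have := h1' w (by omega) hq
    omega
  · exact h
  · have := h1 w' (by omega) hq'
    omega

theorem Tm.exists {Q : ℕ → ℕ → Prop} {p T : ℕ} (h : ∃ w, Q p w) (hT : ¬ ∃ w, w < T ∧ Q p w) :
    ∃ b, T < b ∧ Tm Q p b := by
  classical
  refine ⟨Nat.find h + 1, ?_, ⟨Nat.find h, by omega, Nat.find_spec h⟩, fun w hw hq => ?_⟩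
  · by_contra hcon
    exact hT ⟨Nat.find h, by omega, Nat.find_spec h⟩
  · have := Nat.find_min' h hq
    omega

section

variable (R Q : ℕ → ℕ → Prop) (G : ℕ → ℕ)

/-- one step of a chain -/
def Step (x b b' : ℕ) : Prop :=
  (∃ p, p < x ∧ Tm Q p b') ∧ G b ≤ b' ∧ ∀ y < b, (∃ w, R y w) → ∃ w, w < b' ∧ R y w

/-- `b` is the end of a chain of length `n` above `x` -/
def Ch : ℕ → ℕ → ℕ → Prop
  | 0, x, b => b = x
  | n + 1, x, b => ∃ b', Ch n x b' ∧ Step R Q G x b' b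

/-- one step of a chain, verified by the finite set `v` -/
def Stepv (x b b' v : ℕ) : Prop :=
  (∃ p, p < x ∧ Tm Q p b') ∧ G b ≤ b' ∧
    ∀ y < b, (∃ w, w < b' ∧ R y w) ∨ v.testBit y = true

/-- `b` is the end of a chain of length `n` above `x`, verified by `v` -/
def Chv : ℕ → ℕ → ℕ → ℕ → Prop
  | 0, x, b, _ => b = x
  | n + 1, x, b, v => ∃ b', Chv n x b' v ∧ Stepv R Q G x b' b v

variable {R Q G}

theorem Stepv.step {x b b' v : ℕ} (hv : ∀ y, v.testBit y = true → ¬ ∃ w, R y w)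
    (h : Stepv R Q G x b b' v) : Step R Q G x b b' := by
  refine ⟨h.1, h.2.1, fun y hy hR => ?_⟩
  rcases h.2.2 y hy with h1 | h1
  · exact h1
  · exact absurd hR (hv y h1)

theorem Chv.ch {v : ℕ} (hv : ∀ y, v.testBit y = true → ¬ ∃ w, R y w) {x : ℕ} :
    ∀ {n b : ℕ}, Chv R Q G n x b v → Ch R Q G n x b
  | 0, _, h => h
  | _ + 1, _, ⟨b', h1, h2⟩ => ⟨b', h1.ch hv, h2.step hv⟩

theorem Ch.chv (hG : ∀ y, y < G y) {v K x : ℕ}
    (hv : ∀ y < K, (¬ ∃ w, R y w) → v.testBit y = true) :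
    ∀ {n b : ℕ}, b ≤ K → Ch R Q G n x b → Chv R Q G n x b v
  | 0, _, _, h => h
  | n + 1, b, hb, ⟨b', h1, h2⟩ => by
    have h3 := h2.2.1
    have h4 := hG b'
    refine ⟨b', h1.chv hG hv (by omega), h2.1, h3, fun y hy => ?_⟩
    by_cases hR : ∃ w, R y w
    · exact Or.inl (h2.2.2 y hy hR)
    · exact Or.inr (hv y (by omega) hR)

theorem exists_stage (R : ℕ → ℕ → Prop) (K : ℕ) :
    ∃ T, ∀ y < K, (∃ w, R y w) → ∃ w, w < T ∧ R y w := by
  induction K with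
  | zero => exact ⟨0, fun y hy => absurd hy (Nat.not_lt_zero _)⟩
  | succ K ih =>
    obtain ⟨T, hT⟩ := ih
    by_cases h : ∃ w, R K w
    · obtain ⟨w0, hw0⟩ := h
      refine ⟨T + w0 + 1, fun y hy hR => ?_⟩
      rcases Nat.lt_succ_iff_lt_or_eq.1 hy with h | h
      · obtain ⟨w, hw, h1⟩ := hT y h hR
        exact ⟨w, by omega, h1⟩
      · subst h
        exact ⟨w0, by omega, hw0⟩
    · refine ⟨T, fun y hy hR => ?_⟩
      rcases Nat.lt_succ_iff_lt_or_eq.1 hy with h' | h'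
      · exact hT y h' hR
      · subst h'
        exact absurd hR h

theorem exists_bits (P : ℕ → Prop) (K : ℕ) : ∃ v : ℕ, ∀ y, v.testBit y = true ↔ y < K ∧ P y := by
  classical
  induction K with
  | zero => exact ⟨0, fun y => by simp⟩
  | succ K ih =>
    obtain ⟨v, hv⟩ := ih
    by_cases h : P K
    · refine ⟨v ||| 2 ^ K, fun y => ?_⟩
      rw [Nat.testBit_or, Nat.testBit_two_pow, Bool.or_eq_true, hv, decide_eq_true_eq]
      constructor
      · rintro (⟨h1, h2⟩ | h1)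
        · exact ⟨by omega, h2⟩
        · subst h1
          exact ⟨by omega, h⟩
      · rintro ⟨h1, h2⟩
        rcases Nat.lt_succ_iff_lt_or_eq.1 h1 with h3 | h3
        · exact Or.inl ⟨h3, h2⟩
        · exact Or.inr h3.symm
    · refine ⟨v, fun y => ?_⟩
      rw [hv]
      constructor
      · rintro ⟨h1, h2⟩
        exact ⟨by omega, h2⟩
      · rintro ⟨h1, h2⟩
        rcases Nat.lt_succ_iff_lt_or_eq.1 h1 with h3 | h3
        · exact ⟨h3, h2⟩
        · subst h3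
          exact absurd h2 h

theorem testBit_lt {v y : ℕ} (h : v.testBit y = true) : y < v :=
  lt_of_lt_of_le (Nat.lt_two_pow_self) (Nat.ge_two_pow_of_testBit h)

variable (R Q G)

/-- the reduction -/
def Phi (n m0 x' y' v : ℕ) : Prop :=
  ∃ x b T, m0 ≤ x ∧ Chv R Q G n x b v ∧ G b ≤ T ∧
    (∀ y < b, (∃ w, w < T ∧ R y w) ∨ v.testBit y = true) ∧
    (∀ p < x' + 1, x'.testBit p = true → p < x ∧ ∃ w, w < T ∧ Q p w) ∧
    (∀ p < y' + 1, y'.testBit p = true → p < x ∧ ¬ ∃ w, w < T ∧ Q p w)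

variable {R Q G}

theorem Phi_iff (hG : ∀ y, y < G y) {n m0 : ℕ} (h1 : ∀ m, ∃ x, m ≤ x ∧ ∃ b, Ch R Q G n x b)
    (h2 : ∀ x, m0 ≤ x → ∀ b, ¬ Ch R Q G (n + 1) x b) (x' y' : ℕ) :
    ((∀ p, x'.testBit p = true → ∃ w, Q p w) ∧ (∀ p, y'.testBit p = true → ¬ ∃ w, Q p w)) ↔
      ∃ v : ℕ, (∀ y, v.testBit y = true → ¬ ∃ w, R y w) ∧ Phi R Q G n m0 x' y' v := by
  constructor
  · rintro ⟨h3, h4⟩
    obtain ⟨x, hx, b, hb⟩ := h1 (m0 + x' + y' + 1)
    obtain ⟨v, hv⟩ := exists_bits (fun y => ¬ ∃ w, R y w) b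
    obtain ⟨T1, hT1⟩ := exists_stage R b
    obtain ⟨T2, hT2⟩ := exists_stage Q (x' + 1)
    refine ⟨v, fun y hy => ((hv y).1 hy).2, x, b, G b + T1 + T2, by omega,
      hb.chv hG (fun y hy h => (hv y).2 ⟨hy, h⟩) le_rfl, by omega, fun y hy => ?_,
      fun p hp hxp => ⟨by omega, ?_⟩, fun p hp hyp => ⟨by omega, ?_⟩⟩
    · by_cases hR : ∃ w, R y w
      · obtain ⟨w, hw, h5⟩ := hT1 y hy hR
        exact Or.inl ⟨w, by omega, h5⟩
      · exact Or.inr ((hv y).2 ⟨hy, hR⟩)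
    · obtain ⟨w, hw, h5⟩ := hT2 p hp (h3 p hxp)
      exact ⟨w, by omega, h5⟩
    · rintro ⟨w, -, h5⟩
      exact h4 p hyp ⟨w, h5⟩
  · rintro ⟨v, hv, x, b, T, hx, hc, hT, h3, h4, h5⟩
    refine ⟨fun p hp => ?_, fun p hp hQ => ?_⟩
    · obtain ⟨-, w, -, h6⟩ := h4 p (by have := testBit_lt hp; omega) hp
      exact ⟨w, h6⟩
    · obtain ⟨h6, h7⟩ := h5 p (by have := testBit_lt hp; omega) hp
      obtain ⟨b', hb', h8⟩ := Tm.exists hQ h7
      refine h2 x hx b' ⟨b, hc.ch hv, ⟨p, h6, h8⟩, by omega, fun y hy hR => ?_⟩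
      rcases h3 y hy with ⟨w, hw, h9⟩ | h9
      · exact ⟨w, by omega, h9⟩
      · exact absurd hR (hv y h9)

end

end Pool.Agent.H869R3.UP
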