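import Pool.Agent.H869R3.UP.NatRed

/-!
The model built from long chains.
-/

namespace Pool.Agent.H869R3.UP

open FirstOrder FirstOrder.Language Filter
open Pool.Agent.Helper626
open Pool.Agent.Helper317.Sacks
open Pool.Agent.Helper446 Pool.Agent.Helper446.RE
open Pool.Agent.H869R3.DM (cp_and cp_or cp_imp cp_all cp_ex cp_bool c_find)

/-- an enumeration of the computable functions -/
theorem exists_enum : ∃ g : ℕ → ℕ → ℕ, (∀ k, Computable (g k)) ∧
    ∀ f : ℕ → ℕ, Computable f → ∃ k, g k = f := by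
  have h1 : ∀ f : {f : ℕ → ℕ // Computable f}, ∃ c : Nat.Partrec.Code, c.eval = (f.1 : ℕ →. ℕ) :=
    fun f => Nat.Partrec.Code.exists_code.1 (Partrec.nat_iff.1 f.2)
  choose c hc using h1
  have hinj : Function.Injective c := by
    intro f g hfg
    have h2 : (f.1 : ℕ →. ℕ) = (g.1 : ℕ →. ℕ) := by rw [← hc, ← hc, hfg]
    apply Subtype.ext
    funext n
    have h3 := congrFun h2 n
    exact Part.some_injective h3
  have : Countable {f : ℕ → ℕ // Computable f} := hinj.countable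
  have : Nonempty {f : ℕ → ℕ // Computable f} := ⟨⟨fun _ => 0, Computable.const 0⟩⟩
  obtain ⟨g, hg⟩ := exists_surjective_nat {f : ℕ → ℕ // Computable f}
  refine ⟨fun k => (g k).1, fun k => (g k).2, fun f hf => ?_⟩
  obtain ⟨k, hk⟩ := hg ⟨f, hf⟩
  exact ⟨k, congrArg Subtype.val hk⟩

/-- partial sums -/
def ss (f : ℕ → ℕ) (y : ℕ) : ℕ := Nat.rec (f 0) (fun n ih => ih + f (n + 1)) y

theorem le_ss (f : ℕ → ℕ) {n y : ℕ} (h : n ≤ y) : f n ≤ ss f y := by
  induction y with
  | zero =>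
    have : n = 0 := by omega
    subst this
    exact le_rfl
  | succ y ih =>
    change f n ≤ ss f y + f (y + 1)
    rcases Nat.lt_or_ge n (y + 1) with h1 | h1
    · exact (ih (by omega)).trans (Nat.le_add_right _ _)
    · have : n = y + 1 := by omega
      subst this
      exact Nat.le_add_left _ _

theorem c_ss {f : ℕ → ℕ} (hf : Computable f) : Computable (ss f) := by
  unfold ss
  refine Computable.nat_rec (f := fun y : ℕ => y) (g := fun _ => f 0)
    (h := fun (_ : ℕ) (y : ℕ × ℕ) => y.2 + f (y.1 + 1)) Computable.id (Computable.const _) ?_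
  unfold Computable₂
  have h1 : Computable fun a : ℕ × (ℕ × ℕ) => f (a.2.1 + 1) := hf.comp (by fun_prop)
  exact Primrec.nat_add.to_comp.comp (Computable.snd.comp Computable.snd) h1

/-- growth functions -/
def Gs (g : ℕ → ℕ → ℕ) : ℕ → ℕ → ℕ
  | 0, y => y + 1
  | d + 1, y => Gs g d y + ss (g d) y

theorem c_Gs {g : ℕ → ℕ → ℕ} (hg : ∀ k, Computable (g k)) : ∀ d, Computable (Gs g d)
  | 0 => Computable.succ
  | d + 1 => Primrec.nat_add.to_comp.comp (c_Gs hg d) (c_ss (hg d))

theorem lt_Gs (g : ℕ → ℕ → ℕ) : ∀ d y, y < Gs g d y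
  | 0, y => Nat.lt_succ_self y
  | d + 1, y => (lt_Gs g d y).trans_le (Nat.le_add_right _ _)

theorem le_Gs (g : ℕ → ℕ → ℕ) {k n y : ℕ} (h : n ≤ y) : ∀ {d}, k < d → g k n ≤ Gs g d y
  | 0, hk => absurd hk (Nat.not_lt_zero _)
  | d + 1, hk => by
    rcases Nat.lt_succ_iff_lt_or_eq.1 hk with h1 | h1
    · exact (le_Gs g h h1).trans (Nat.le_add_right _ _)
    · subst h1
      exact (le_ss _ h).trans (Nat.le_add_left _ _)

section

variable {R Q : ℕ → ℕ → Prop} {G : ℕ → ℕ}

theorem Ch.seq {x : ℕ} : ∀ {n b : ℕ}, Ch R Q G n x b →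
    ∃ β : ℕ → ℕ, β 0 = x ∧ (∀ i < n, Step R Q G x (β i) (β (i + 1))) ∧ β n = b
  | 0, b, h => ⟨fun _ => x, rfl, fun i hi => absurd hi (Nat.not_lt_zero _), by
      rw [show b = x from h]⟩
  | n + 1, b, ⟨b', h1, h2⟩ => by
    obtain ⟨β, h3, h4, h5⟩ := h1.seq
    refine ⟨fun i => if i ≤ n then β i else b, ?_, fun i hi => ?_, ?_⟩
    · simpa using h3
    · rcases Nat.lt_succ_iff_lt_or_eq.1 hi with h | h
      · have e1 : i ≤ n := by omega
        have e2 : i + 1 ≤ n := h
        simp only [e1, e2, if_true]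
        exact h4 i h
      · subst h
        have e2 : ¬ i + 1 ≤ i := by omega
        simp only [le_refl, e2, if_true, if_false]
        rw [h5]
        exact h2
    · have e2 : ¬ n + 1 ≤ n := by omega
      simp only [e2, if_false]

/-- the data of the model -/
structure Data (R Q : ℕ → ℕ → Prop) (B : ℕ → ℕ → ℕ) : Prop where
  base : ∀ d, d ≤ B 0 d
  mono : ∀ d, Monotone fun j => B j d
  lt : ∀ d j, j < d → B j d < B (j + 1) d
  tm : ∀ d j, j < d → ∃ p, p < B 0 d ∧ Tm Q p (B (j + 1) d)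
  settle : ∀ d j, j < d → ∀ y < B j d, (∃ w, R y w) → ∃ w, w < B (j + 1) d ∧ R y w
  grow : ∀ f : ℕ → ℕ, Computable f → ∃ k, ∀ d, k < d → ∀ j < d, ∀ n ≤ B j d, f n ≤ B (j + 1) d

theorem exists_data (h : ∀ G : ℕ → ℕ, Computable G → (∀ y, y < G y) → ∀ n m, ∃ x, m ≤ x ∧
    ∃ b, Ch R Q G n x b) : ∃ B : ℕ → ℕ → ℕ, Data R Q B := by
  obtain ⟨g, hg, hg'⟩ := exists_enum
  have h1 : ∀ d, ∃ β : ℕ → ℕ, d ≤ β 0 ∧ ∀ i < d, Step R Q (Gs g d) (β 0) (β i) (β (i + 1)) := by
    intro d
    obtain ⟨x, hx, b, hb⟩ := h (Gs g d) (c_Gs hg d) (lt_Gs g d) d d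
    obtain ⟨β, h3, h4, -⟩ := hb.seq
    refine ⟨β, by rw [h3]; exact hx, fun i hi => ?_⟩
    rw [h3]
    exact h4 i hi
  choose β h2 h3 using h1
  have hB : ∀ j d, j < d → β d (min (j + 1) d) = β d (j + 1) ∧ β d (min j d) = β d j := by
    intro j d hj
    rw [min_eq_left (by omega), min_eq_left (by omega)]
    exact ⟨rfl, rfl⟩
  have hlt : ∀ d j, j < d → β d j < β d (j + 1) := by
    intro d j hj
    exact (lt_Gs g d _).trans_le (h3 d j hj).2.1
  refine ⟨fun j d => β d (min j d), fun d => ?_, fun d => ?_, fun d j hj => ?_, fun d j hj => ?_,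
    fun d j hj => ?_, fun f hf => ?_⟩
  · simpa using h2 d
  · refine monotone_nat_of_le_succ fun j => ?_
    rcases Nat.lt_or_ge j d with hj | hj
    · rw [(hB j d hj).1, (hB j d hj).2]
      exact (hlt d j hj).le
    · rw [min_eq_right hj, min_eq_right (by omega)]
  · rw [(hB j d hj).1, (hB j d hj).2]
    exact hlt d j hj
  · rw [(hB j d hj).1, Nat.zero_min]
    exact (h3 d j hj).1
  · rw [(hB j d hj).1, (hB j d hj).2]
    exact (h3 d j hj).2.2
  · obtain ⟨k, rfl⟩ := hg' f hf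
    refine ⟨k, fun d hd j hj n hn => ?_⟩
    rw [(hB j d hj).2] at hn
    rw [(hB j d hj).1]
    exact (le_Gs g hn hd).trans (h3 d j hj).2.1

end

/-- the ultrafilter -/
noncomputable def Uf : Ultrafilter ℕ := hyperfilter ℕ

theorem Uf_ge (k : ℕ) : ∀ᶠ d in (Uf : Filter ℕ), k ≤ d := by
  have h : (Uf : Filter ℕ) ≤ atTop := by
    unfold Uf
    rw [← Nat.cofinite_eq_atTop]
    exact hyperfilter_le_cofinite
  exact h (eventually_ge_atTop k)

section

variable {R Q : ℕ → ℕ → Prop} {B : ℕ → ℕ → ℕ}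

theorem Data.adm (D : Data R Q B) : Adm Set.univ Uf B where
  const _ := Set.mem_univ _
  pair _ _ _ _ := Set.mem_univ _
  comp _ _ _ _ := Set.mem_univ _
  Bmem _ := Set.mem_univ _
  Bmono j := Eventually.of_forall fun d => D.mono d (Nat.le_succ j)
  Brec g hg j := by
    obtain ⟨k, hk⟩ := D.grow g hg
    refine ⟨j + 1, ?_⟩
    filter_upwards [Uf_ge (k + 1), Uf_ge (j + 1)] with d h1 h2
    exact hk d (by omega) j (by omega)

/-- membership in the set of the times coded by `c` -/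
def InS (Q : ℕ → ℕ → Prop) (c b : ℕ) : Prop := ∃ p, p < c + 1 ∧ (c.testBit p = true ∧ Tm Q p b)

/-- the kernel of the decision procedure -/
def KK (R Q : ℕ → ℕ → Prop) (c x y s : ℕ) : Prop :=
  (∀ p < x + 1, x.testBit p = true → ∃ w, w < s ∧ R p w) ∧
    ∃ b, b < s ∧ ∃ b', b' < s ∧ ((InS Q c b ∧ InS Q c b') ∧ b < b' ∧
      ∀ p < y + 1, y.testBit p = true → p < b ∧ ¬ ∃ w, w < b' ∧ R p w)

theorem cp_KK {α : Type*} [Primcodable α] (hR : ComputablePred fun p : ℕ × ℕ => R p.1 p.2)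
    (hQ : ComputablePred fun p : ℕ × ℕ => Q p.1 p.2) {f g h k : α → ℕ}
    (hf : Computable f) (hg : Computable g) (hh : Computable h) (hk : Computable k) :
    ComputablePred fun a => KK R Q (f a) (g a) (h a) (k a) := by
  have hS : ComputablePred fun q : ℕ × ℕ => InS Q q.1 q.2 := by
    unfold InS
    refine cp_ex (p := fun (q : ℕ × ℕ) p => q.1.testBit p = true ∧ Tm Q p q.2)
      (cp_and (cp_bool (by fun_prop)) (cp_Tm hQ (by fun_prop) (by fun_prop))) (by fun_prop)
  unfold KK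
  refine cp_and (cp_all (p := fun a p => (g a).testBit p = true → ∃ w, w < k a ∧ R p w)
    (cp_imp (cp_bool (by fun_prop)) (cp_wit hR (by fun_prop) (by fun_prop))) (by fun_prop)) ?_
  refine cp_ex (p := fun a b => ∃ b', b' < k a ∧ ((InS Q (f a) b ∧ InS Q (f a) b') ∧ b < b' ∧
      ∀ p < h a + 1, (h a).testBit p = true → p < b ∧ ¬ ∃ w, w < b' ∧ R p w)) ?_ hk
  refine cp_ex (p := fun (q : α × ℕ) b' => ((InS Q (f q.1) q.2 ∧ InS Q (f q.1) b') ∧ q.2 < b' ∧
      ∀ p < h q.1 + 1, (h q.1).testBit p = true → p < q.2 ∧ ¬ ∃ w, w < b' ∧ R p w)) ?_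
      (by fun_prop)
  refine cp_and (cp_and (cp_app hS (by fun_prop) (by fun_prop))
    (cp_app hS (by fun_prop) (by fun_prop))) (cp_and (cp_lt (by fun_prop) (by fun_prop)) ?_)
  refine cp_all (p := fun (q : (α × ℕ) × ℕ) p => (h q.1.1).testBit p = true →
    p < q.1.2 ∧ ¬ ∃ w, w < q.2 ∧ R p w) (cp_imp (cp_bool (by fun_prop))
      (cp_and (cp_lt (by fun_prop) (by fun_prop)) (cp_wit hR (by fun_prop)
        (by fun_prop)).not)) (by fun_prop)

/-- membership in the enumerable set of the model -/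
theorem mem_iff (D : Data R Q B) [Fact (Adm Set.univ Uf B)] (x : Mod Set.univ Uf B) :
    (∃ w : Mod Set.univ Uf B, ∀ᶠ d in (Uf : Filter ℕ), R (rep x d) (rep w d)) ↔
      ∀ᶠ d in (Uf : Filter ℕ), ∃ w, R (rep x d) w := by
  constructor
  · rintro ⟨w, hw⟩
    exact hw.mono fun d hd => ⟨_, hd⟩
  · intro h
    obtain ⟨j, hj⟩ := (rep_pre x).2
    have h1 : ∀ᶠ d in (Uf : Filter ℕ), ∃ w, w < B (j + 2) d ∧ R (rep x d) w := by
      filter_upwards [h, hj, Uf_ge (j + 2)] with d h1 h2 h3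
      exact D.settle d (j + 1) (by omega) _ (h2.trans_lt (D.lt d j (by omega))) h1
    obtain ⟨f, hf⟩ := h1.choice
    obtain ⟨w, hw⟩ := exists_rep (F := Set.univ) (U := Uf) (B := B) f
      ⟨Set.mem_univ _, j + 2, hf.mono fun d hd => hd.1.le⟩
    refine ⟨w, ?_⟩
    filter_upwards [hf, hw] with d h1 h2
    rw [h2]
    exact h1.2

/-- the set of the model is computable -/
theorem tle_mod (D : Data R Q B) [Fact (Adm Set.univ Uf B)] (e : Bool)
    (hR : ComputablePred fun p : ℕ × ℕ => R p.1 p.2)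
    (hQ : ComputablePred fun p : ℕ × ℕ => Q p.1 p.2) {A : Set (Mod Set.univ Uf B)}
    (hA : ∀ x, x ∈ A ↔ ∀ᶠ d in (Uf : Filter ℕ), ∃ w, R (rep x d) w)
    (C : Set (Mod Set.univ Uf B)) : TLE e A C := by
  classical
  -- the parameter
  have hc0 : ∀ d, ∃ c : ℕ, ∀ p, c.testBit p = true ↔ p < B 0 d ∧ ∃ i < d, Tm Q p (B (i + 1) d) :=
    fun d => exists_bits _ _
  choose c0 hc0 using hc0
  have hB0 : IsPre Set.univ Uf B (B 0) := ⟨Set.mem_univ _, 0, Eventually.of_forall fun d => le_rfl⟩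
  have hpow : Computable fun n : ℕ => 2 ^ n := by
    have hp : Primrec₂ (fun a b : ℕ => a ^ b) := Primrec₂.unpaired'.1 Nat.Primrec.pow
    exact (hp.comp (Primrec.const 2) Primrec.id).to_comp
  have hc1 : IsPre Set.univ Uf B c0 := by
    refine (hB0.comp hpow).of_le (Set.mem_univ _) (Eventually.of_forall fun d => ?_)
    refine (Nat.lt_pow_two_of_testBit _ fun i hi => ?_).le
    rw [Bool.eq_false_iff]
    intro h
    have := ((hc0 d i).1 h).1
    omega
  obtain ⟨c, hc⟩ := exists_rep _ hc1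
  -- elements of the coded set of times
  have hIn : ∀ d b, InS Q (c0 d) b ↔ ∃ i < d, b = B (i + 1) d := by
    intro d b
    constructor
    · rintro ⟨p, -, hp, ht⟩
      obtain ⟨-, i, hi, h1⟩ := (hc0 d p).1 hp
      exact ⟨i, hi, ht.unique h1⟩
    · rintro ⟨i, hi, rfl⟩
      obtain ⟨p, hp, h1⟩ := D.tm d i hi
      have h2 := (hc0 d p).2 ⟨hp, i, hi, h1⟩
      exact ⟨p, by have := testBit_lt h2; omega, h2, h1⟩
  -- the formula
  have hrel : ComputablePred fun p : ℕ × ℕ => KK R Q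
      p.1.unpair.1.unpair.1.unpair.1.unpair.1.unpair.2 p.1.unpair.1.unpair.1.unpair.1.unpair.2
      p.1.unpair.1.unpair.1.unpair.2 p.2 :=
    cp_KK hR hQ (by fun_prop) (by fun_prop) (by fun_prop) (by fun_prop)
  obtain ⟨φ, hφ, hsat⟩ := sigma_common e (1 + 4) (R := fun z s => KK R Q
      z.unpair.1.unpair.1.unpair.1.unpair.1.unpair.2 z.unpair.1.unpair.1.unpair.1.unpair.2
      z.unpair.1.unpair.1.unpair.2 s) hrel
  refine ⟨fun x y _ _ => ∃ s : Mod Set.univ Uf B, ∀ᶠ d in (Uf : Filter ℕ),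
    KK R Q (rep c d) (rep x d) (rep y d) (rep s d), ⟨1, φ, ![c], hφ, fun x y u v => ?_⟩,
    fun x y => ?_⟩
  · rw [hsat]
    have henc : ∀ d, enc (1 + 4) (fun k => rep ((Fin.append ![c] ![x, y, u, v] :
        Fin (1 + 4) → Mod Set.univ Uf B) k) d) =
        Nat.pair (Nat.pair (Nat.pair (Nat.pair (Nat.pair 0 (rep c d)) (rep x d)) (rep y d))
          (rep u d)) (rep v d) := by
      intro d
      rfl
    simp only [henc, Nat.unpair_pair]
  · constructor
    · rintro ⟨h1, h2⟩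
      refine ⟨0, 0, by rw [turing_fset_zero]; exact Set.empty_subset _,
        by rw [turing_fset_zero]; exact Set.empty_subset _, ?_⟩
      have hx : ∀ᶠ d in (Uf : Filter ℕ), ∀ p, (rep x d).testBit p = true → ∃ w, R p w := by
        by_contra hcon
        rw [← Ultrafilter.eventually_not] at hcon
        have h3 : ∀ᶠ d in (Uf : Filter ℕ), ∃ p, (rep x d).testBit p = true ∧ ¬ ∃ w, R p w := by
          filter_upwards [hcon] with d hd
          by_contra h4
          apply hd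
          intro p hp
          by_contra h5
          exact h4 ⟨p, hp, h5⟩
        obtain ⟨f, hf⟩ := h3.choice
        obtain ⟨p, hp⟩ := exists_rep (F := Set.univ) (U := Uf) (B := B) f
          ((rep_pre x).of_le (Set.mem_univ _) (hf.mono fun d hd => (testBit_lt hd.1).le))
        have h4 : p ∈ fset x := by
          rw [mem_fset_iff]
          filter_upwards [hf, hp] with d h5 h6
          rw [h6]
          exact h5.1
        have h5 := (hA p).1 (h1 h4)
        obtain ⟨d, h6, h7, h8⟩ := (h5.and (hf.and hp)).exists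
        rw [h8] at h6
        exact h7.2 h6
      have hy : ∀ᶠ d in (Uf : Filter ℕ), ∀ p, (rep y d).testBit p = true → ¬ ∃ w, R p w := by
        by_contra hcon
        rw [← Ultrafilter.eventually_not] at hcon
        have h3 : ∀ᶠ d in (Uf : Filter ℕ), ∃ p, (rep y d).testBit p = true ∧ ∃ w, R p w := by
          filter_upwards [hcon] with d hd
          by_contra h4
          apply hd
          intro p hp h5
          exact h4 ⟨p, hp, h5⟩
        obtain ⟨f, hf⟩ := h3.choice
        obtain ⟨p, hp⟩ := exists_rep (F := Set.univ) (U := Uf) (B := B) f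
          ((rep_pre y).of_le (Set.mem_univ _) (hf.mono fun d hd => (testBit_lt hd.1).le))
        have h4 : p ∈ fset y := by
          rw [mem_fset_iff]
          filter_upwards [hf, hp] with d h5 h6
          rw [h6]
          exact h5.1
        refine h2 h4 ((hA p).2 ?_)
        filter_upwards [hf, hp] with d h5 h6
        rw [h6]
        exact h5.2
      obtain ⟨j1, hj1⟩ := (rep_pre x).2
      obtain ⟨j2, hj2⟩ := (rep_pre y).2
      obtain ⟨j, h3, h4⟩ : ∃ j, j1 ≤ j ∧ j2 ≤ j := ⟨max j1 j2, le_max_left _ _, le_max_right _ _⟩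
      have hpre : IsPre Set.univ Uf B (fun d => B (j + 2) d + 1) :=
        IsPre.comp (f := B (j + 2)) ⟨Set.mem_univ _, j + 2, Eventually.of_forall fun d => le_rfl⟩
          (g := fun n => n + 1) Computable.succ
      obtain ⟨s, hs⟩ := exists_rep _ hpre
      refine ⟨s, ?_⟩
      filter_upwards [hx, hy, hj1, hj2, hs, hc, Uf_ge (j + 3)] with d k1 k2 k3 k4 k5 k6 k7
      rw [k5, k6]
      have k8 : rep x d ≤ B j d := k3.trans (D.mono d h3)
      have k9 : rep y d ≤ B j d := k4.trans (D.mono d h4)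
      have l1 := D.lt d j (by omega)
      have l2 := D.lt d (j + 1) (by omega)
      have l3 : B (j + 1 + 1) d = B (j + 2) d := rfl
      refine ⟨fun p _ hp => ?_, B (j + 1) d, by omega, B (j + 2) d, by omega,
        ⟨(hIn _ _).2 ⟨j, by omega, rfl⟩, (hIn _ _).2 ⟨j + 1, by omega, rfl⟩⟩, by omega,
        fun p _ hp => ⟨?_, ?_⟩⟩
      · have := testBit_lt hp
        obtain ⟨w, hw, h5⟩ := D.settle d j (by omega) p (by omega) (k1 p hp)
        exact ⟨w, by omega, h5⟩
      · have := testBit_lt hp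
        omega
      · rintro ⟨w, -, hw⟩
        exact k2 p hp ⟨w, hw⟩
    · rintro ⟨_, _, _, _, s, hs⟩
      constructor
      · intro p hp
        rw [mem_fset_iff] at hp
        rw [hA]
        filter_upwards [hp, hs] with d h1 h2
        obtain ⟨w, -, hw⟩ := h2.1 _ (by have := testBit_lt h1; omega) h1
        exact ⟨w, hw⟩
      · intro p hp hpA
        rw [mem_fset_iff] at hp
        rw [hA] at hpA
        obtain ⟨d, h1, h2, h3, h4⟩ := (hp.and (hs.and (hpA.and hc))).exists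
        obtain ⟨-, b, -, b', -, ⟨h5, h6⟩, h7, h8⟩ := h2
        rw [h4, hIn] at h5 h6
        obtain ⟨i, hi, rfl⟩ := h5
        obtain ⟨i', hi', rfl⟩ := h6
        obtain ⟨h9, h10⟩ := h8 _ (by have := testBit_lt h1; omega) h1
        have h11 : i + 1 < i' + 1 := by
          by_contra hcon
          have := D.mono d (show i' + 1 ≤ i + 1 by omega)
          exact absurd h7 (not_lt.2 this)
        obtain ⟨w, hw, h12⟩ := D.settle d (i + 1) (by omega) _ h9 h3
        exact h10 ⟨w, hw.trans_le (D.mono d (show i + 1 + 1 ≤ i' + 1 by omega)), h12⟩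

end

end Pool.Agent.H869R3.UP
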