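import Pool.Agent.H869R3.UP.Cut

/-!
A dichotomy for the sets defined by parameter-free `Σ_1` formulas.
-/

namespace Pool.Agent.H869R3.UP

open FirstOrder FirstOrder.Language Filter
open Pool.Agent.Helper626
open Pool.Agent.Helper317.Sacks
open Pool.Agent.Helper446 Pool.Agent.Helper446.RE

theorem nat_PAminusExp : PAminusExp ℕ where
  add_assoc := Nat.add_assoc
  add_comm := Nat.add_comm
  mul_assoc := Nat.mul_assoc
  mul_comm := Nat.mul_comm
  mul_add := Nat.mul_add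
  add_zero := Nat.add_zero
  mul_zero := Nat.mul_zero
  mul_one := Nat.mul_one
  lt_trans _ _ _ := Nat.lt_trans
  lt_irrefl := Nat.lt_irrefl
  lt_trichotomy := Nat.lt_trichotomy
  add_lt_add _ _ z h := Nat.add_lt_add_right h z
  mul_lt_mul _ _ _ hz h := Nat.mul_lt_mul_of_pos_right h hz
  exists_add x y h := ⟨y - x, Nat.add_sub_cancel' (Nat.le_of_lt h)⟩
  zero_lt_one := Nat.zero_lt_one
  discrete x h := by
    rcases Nat.lt_or_ge 1 x with h1 | h1
    · exact Or.inr h1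
    · exact Or.inl (Nat.le_antisymm h1 h)
  nonneg x := by
    rcases Nat.eq_zero_or_pos x with h | h
    · exact Or.inl h
    · exact Or.inr h
  pow_zero := Nat.pow_zero
  pow_succ _ _ := rfl

theorem nat_ISigma (e : Bool) (k : ℕ) : ISigma e k ℕ := by
  intro m φ _ p h0 hs x
  induction x with
  | zero => exact h0
  | succ x ih => exact hs x ih

theorem nat_BSigma (e : Bool) (k : ℕ) : BSigma e k ℕ := by
  intro m φ _ p a h
  have h1 : ∀ a' : ℕ, a' ≤ a → ∃ t : ℕ, ∀ x : ℕ, x < a' → ∃ y : ℕ, y < t ∧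
      Sat φ (Fin.snoc (Fin.snoc p x : Fin (m + 1) → ℕ) y) := by
    intro a'
    induction a' with
    | zero => exact fun _ => ⟨0, fun x hx => absurd hx (Nat.not_lt_zero _)⟩
    | succ a' ih =>
      intro ha
      obtain ⟨t, ht⟩ := ih (by omega)
      obtain ⟨y, hy⟩ := h a' ha
      refine ⟨t + y + 1, fun x hx => ?_⟩
      rcases Nat.lt_succ_iff_lt_or_eq.1 hx with h2 | h2
      · obtain ⟨z, hz, h3⟩ := ht x h2
        exact ⟨z, by omega, h3⟩
      · subst h2
        exact ⟨y, by omega, hy⟩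
  exact h1 a le_rfl

theorem PrimrecRel.cp {R : ℕ → ℕ → Prop} (h : PrimrecRel R) :
    ComputablePred fun p : ℕ × ℕ => R p.1 p.2 := by
  obtain ⟨i, hi⟩ := h
  exact ⟨fun p => i p, hi.to_comp⟩

/-- For every `Σ_1` formula `φ` either every c.e. set of the standard model is reducible to
`φ(ℕ)`, or there is a model in which `φ(M)` is reducible to every set. -/
theorem dichotomy (e : Bool) (φ : Fml e 1) (hφ : IsSigma 1 φ) :
    (∀ C : Set ℕ, SigmaDef e 1 C → TLE e C (defSet φ ℕ)) ∨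
    ∃ (M : Type) (_ : ArithOps M), PAminusExp M ∧ (∀ e', ISigma e' 0 M ∧ BSigma e' 1 M) ∧
      ∀ C : Set M, TLE e (defSet φ M) C := by
  by_cases hall : ∀ C : Set ℕ, SigmaDef e 1 C → TLE e C (defSet φ ℕ)
  · exact Or.inl hall
  right
  push Not at hall
  obtain ⟨C, ⟨m, χ, p, hχ, hC⟩, hnot⟩ := hall
  obtain ⟨R0, hR0, hR1, hR2⟩ := sigma_rel hφ
  obtain ⟨Q0, hQ0, hQ1, -⟩ := sigma_rel hχ
  have hR : ComputablePred fun q : ℕ × ℕ => (fun x w => R0 (Nat.pair 0 x) w) q.1 q.2 :=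
    cp_comp (p := fun q : ℕ × ℕ => R0 q.1 q.2) (PrimrecRel.cp hR0)
      (f := fun q : ℕ × ℕ => (Nat.pair 0 q.1, q.2)) (by fun_prop)
  have hQ : ComputablePred fun q : ℕ × ℕ => (fun x w => Q0 (Nat.pair (enc m p) x) w) q.1 q.2 :=
    cp_comp (p := fun q : ℕ × ℕ => Q0 q.1 q.2) (PrimrecRel.cp hQ0)
      (f := fun q : ℕ × ℕ => (Nat.pair (enc m p) q.1, q.2)) (by fun_prop)
  have hW : defSet φ ℕ = {x : ℕ | ∃ w, (fun x w => R0 (Nat.pair 0 x) w) x w} := by
    ext x
    change Sat φ ![x] ↔ _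
    rw [hR1]
    rfl
  have hC' : C = {x : ℕ | ∃ w, (fun x w => Q0 (Nat.pair (enc m p) x) w) x w} := by
    ext x
    rw [hC, hQ1]
    have : enc (m + 1) (Fin.snoc p x : Fin (m + 1) → ℕ) = Nat.pair (enc m p) x := by
      change Nat.pair (enc m (Fin.init (Fin.snoc p x : Fin (m + 1) → ℕ)))
        ((Fin.snoc p x : Fin (m + 1) → ℕ) (Fin.last m)) = _
      rw [Fin.init_snoc, Fin.snoc_last]
    rw [this]
    rfl
  have hchain : ∀ G : ℕ → ℕ, Computable G → (∀ y, y < G y) → ∀ n k, ∃ x, k ≤ x ∧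
      ∃ b, Ch (fun x w => R0 (Nat.pair 0 x) w) (fun x w => Q0 (Nat.pair (enc m p) x) w) G n x b := by
    intro G hGc hG n
    induction n with
    | zero => exact fun k => ⟨k, le_rfl, k, rfl⟩
    | succ n ih =>
      by_contra hcon
      push Not at hcon
      obtain ⟨k, hk⟩ := hcon
      apply hnot
      rw [hW, hC']
      exact tle_nat e hR hQ hGc hG ih (m0 := k) fun x hx b => hk x hx b
  obtain ⟨B, D⟩ := exists_data hchain
  have : Fact (Adm Set.univ Uf B) := ⟨D.adm⟩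
  refine ⟨Mod Set.univ Uf B, inferInstance, mod_PAminusExp,
    fun e' => ⟨mod_ISigma e', mod_BSigma D.mono Uf_ge e'⟩, fun C => ?_⟩
  refine tle_mod D e hR hQ (fun x => ?_) C
  rw [← mem_iff D]
  change Sat φ ![x] ↔ _
  rw [hR2]
  rfl

/-- the set defined by a parameter-free `Σ_1` formula is c.e. -/
theorem defSet_sigma {e : Bool} (φ : Fml e 1) (hφ : IsSigma 1 φ) (M : Type) [ArithOps M] :
    SigmaDef e 1 (defSet φ M) := by
  refine ⟨0, φ, Fin.elim0, hφ, fun x => ?_⟩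
  have : (Fin.snoc (Fin.elim0 : Fin 0 → M) x : Fin (0 + 1) → M) = ![x] := by
    funext i
    fin_cases i
    rfl
  rw [this]
  rfl

end Pool.Agent.H869R3.UP
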