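import Pool.Agent.H869R3.UP.Chain

/-!
The reduction in the standard model.
-/

namespace Pool.Agent.H869R3.UP

open FirstOrder FirstOrder.Language Filter
open Pool.Agent.Helper626
open Pool.Agent.Helper446 Pool.Agent.Helper446.RE
open Pool.Agent.H869R3.DM (cp_and cp_or cp_imp cp_all cp_ex cp_bool c_find)

section

variable {R Q : ℕ → ℕ → Prop} {G : ℕ → ℕ}

theorem cp_app {α : Type*} [Primcodable α] (hR : ComputablePred fun p : ℕ × ℕ => R p.1 p.2)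
    {f g : α → ℕ} (hf : Computable f) (hg : Computable g) :
    ComputablePred fun a => R (f a) (g a) :=
  cp_comp (p := fun p : ℕ × ℕ => R p.1 p.2) hR (f := fun a => (f a, g a)) (by fun_prop)

theorem cp_wit {α : Type*} [Primcodable α] (hR : ComputablePred fun p : ℕ × ℕ => R p.1 p.2)
    {f g : α → ℕ} (hf : Computable f) (hg : Computable g) :
    ComputablePred fun a => ∃ w, w < g a ∧ R (f a) w :=
  cp_ex (p := fun a w => R (f a) w) (cp_app hR (by fun_prop) (by fun_prop)) hg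

theorem c_testBit : Computable fun q : ℕ × ℕ => q.1.testBit q.2 := by
  have hp : Primrec₂ (fun a b : ℕ => a ^ b) := Primrec₂.unpaired'.1 Nat.Primrec.pow
  have h1 : Primrec (fun q : ℕ × ℕ => q.1 / 2 ^ q.2 % 2) :=
    Primrec.nat_mod.comp (Primrec.nat_div.comp Primrec.fst
      (hp.comp (Primrec.const 2) Primrec.snd)) (Primrec.const 2)
  have h2 : PrimrecPred (fun q : ℕ × ℕ => q.1 / 2 ^ q.2 % 2 = 1) :=
    Primrec.eq.comp h1 (Primrec.const 1)
  obtain ⟨_, h3⟩ := h2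
  refine (h3.to_comp).of_eq fun q => ?_
  rw [Nat.testBit_eq_decide_div_mod_eq]
  exact decide_eq_decide.2 Iff.rfl

@[fun_prop] theorem c_testBit' {α : Type*} [Primcodable α] {f g : α → ℕ} (hf : Computable f)
    (hg : Computable g) : Computable fun a => (f a).testBit (g a) :=
  c_testBit.comp (f := fun q : ℕ × ℕ => q.1.testBit q.2) (g := fun a => (f a, g a)) (by fun_prop)

theorem cp_Tm {α : Type*} [Primcodable α] (hQ : ComputablePred fun p : ℕ × ℕ => Q p.1 p.2)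
    {f g : α → ℕ} (hf : Computable f) (hg : Computable g) :
    ComputablePred fun a => Tm Q (f a) (g a) := by
  unfold Tm
  refine cp_and (cp_wit hQ hf hg) (cp_all (p := fun a w => Q (f a) w → g a ≤ w + 1) ?_ hg)
  exact cp_imp (cp_app hQ (by fun_prop) (by fun_prop)) (cp_le (by fun_prop) (by fun_prop))

theorem cp_Stepv {α : Type*} [Primcodable α] (hR : ComputablePred fun p : ℕ × ℕ => R p.1 p.2)
    (hQ : ComputablePred fun p : ℕ × ℕ => Q p.1 p.2) (hG : Computable G) {f g h k : α → ℕ}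
    (hf : Computable f) (hg : Computable g) (hh : Computable h) (hk : Computable k) :
    ComputablePred fun a => Stepv R Q G (f a) (g a) (h a) (k a) := by
  unfold Stepv
  refine cp_and (cp_ex (p := fun a p => Tm Q p (h a)) (cp_Tm hQ (by fun_prop) (by fun_prop)) hf)
    (cp_and (cp_le (hG.comp hg) hh) (cp_all (p := fun a y => (∃ w, w < h a ∧ R y w) ∨
      (k a).testBit y = true) (cp_or (cp_wit hR (by fun_prop) (by fun_prop))
        (cp_bool (by fun_prop))) hg))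

theorem re_Chv (hR : ComputablePred fun p : ℕ × ℕ => R p.1 p.2)
    (hQ : ComputablePred fun p : ℕ × ℕ => Q p.1 p.2) (hG : Computable G) (n : ℕ) :
    REPred fun q : ℕ × ℕ × ℕ => Chv R Q G n q.1 q.2.1 q.2.2 := by
  induction n with
  | zero =>
    exact RE.eq (by fun_prop) (by fun_prop)
  | succ n ih =>
    refine RE.exN (p := fun (q : ℕ × ℕ × ℕ) b' => Chv R Q G n q.1 b' q.2.2 ∧
      Stepv R Q G q.1 b' q.2.1 q.2.2) (RE.and ?_ ?_)
    · exact RE.comp ih (f := fun x : (ℕ × ℕ × ℕ) × ℕ => (x.1.1, x.2, x.1.2.2)) (by fun_prop)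
    · exact (cp_Stepv hR hQ hG (by fun_prop) (by fun_prop) (by fun_prop) (by fun_prop)).to_re

theorem re_Phi (hR : ComputablePred fun p : ℕ × ℕ => R p.1 p.2)
    (hQ : ComputablePred fun p : ℕ × ℕ => Q p.1 p.2) (hG : Computable G) (n m0 : ℕ) :
    REPred fun q : ℕ × ℕ × ℕ => Phi R Q G n m0 q.1 q.2.1 q.2.2 := by
  unfold Phi
  refine RE.exN (p := fun (q : ℕ × ℕ × ℕ) x => ∃ b T, m0 ≤ x ∧ Chv R Q G n x b q.2.2 ∧ G b ≤ T ∧
    (∀ y < b, (∃ w, w < T ∧ R y w) ∨ q.2.2.testBit y = true) ∧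
    (∀ p < q.1 + 1, q.1.testBit p = true → p < x ∧ ∃ w, w < T ∧ Q p w) ∧
    (∀ p < q.2.1 + 1, q.2.1.testBit p = true → p < x ∧ ¬ ∃ w, w < T ∧ Q p w)) ?_
  refine RE.exN (p := fun (q : (ℕ × ℕ × ℕ) × ℕ) b => ∃ T, m0 ≤ q.2 ∧
    Chv R Q G n q.2 b q.1.2.2 ∧ G b ≤ T ∧
    (∀ y < b, (∃ w, w < T ∧ R y w) ∨ q.1.2.2.testBit y = true) ∧
    (∀ p < q.1.1 + 1, q.1.1.testBit p = true → p < q.2 ∧ ∃ w, w < T ∧ Q p w) ∧
    (∀ p < q.1.2.1 + 1, q.1.2.1.testBit p = true → p < q.2 ∧ ¬ ∃ w, w < T ∧ Q p w)) ?_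
  refine RE.exN (p := fun (q : ((ℕ × ℕ × ℕ) × ℕ) × ℕ) T => m0 ≤ q.1.2 ∧
    Chv R Q G n q.1.2 q.2 q.1.1.2.2 ∧ G q.2 ≤ T ∧
    (∀ y < q.2, (∃ w, w < T ∧ R y w) ∨ q.1.1.2.2.testBit y = true) ∧
    (∀ p < q.1.1.1 + 1, q.1.1.1.testBit p = true → p < q.1.2 ∧ ∃ w, w < T ∧ Q p w) ∧
    (∀ p < q.1.1.2.1 + 1, q.1.1.2.1.testBit p = true → p < q.1.2 ∧
      ¬ ∃ w, w < T ∧ Q p w)) ?_
  refine RE.and (RE.le (by fun_prop) (by fun_prop)) (RE.and ?_ ?_)
  · exact RE.comp (re_Chv hR hQ hG n) (f := fun x : (((ℕ × ℕ × ℕ) × ℕ) × ℕ) × ℕ =>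
      (x.1.1.2, x.1.2, x.1.1.1.2.2)) (by fun_prop)
  · refine (cp_and (cp_le (hG.comp (by fun_prop)) (by fun_prop)) (cp_and ?_
      (cp_and ?_ ?_))).to_re
    · refine cp_all (p := fun (x : (((ℕ × ℕ × ℕ) × ℕ) × ℕ) × ℕ) y =>
        (∃ w, w < x.2 ∧ R y w) ∨ x.1.1.1.2.2.testBit y = true) (cp_or
        (cp_wit hR (by fun_prop) (by fun_prop)) (cp_bool (by fun_prop))) (by fun_prop)
    · refine cp_all (p := fun (x : (((ℕ × ℕ × ℕ) × ℕ) × ℕ) × ℕ) p =>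
        x.1.1.1.1.testBit p = true → p < x.1.1.2 ∧ ∃ w, w < x.2 ∧ Q p w) (cp_imp
        (cp_bool (by fun_prop)) (cp_and (cp_lt (by fun_prop) (by fun_prop))
          (cp_wit hQ (by fun_prop) (by fun_prop)))) (by fun_prop)
    · refine cp_all (p := fun (x : (((ℕ × ℕ × ℕ) × ℕ) × ℕ) × ℕ) p =>
        x.1.1.1.2.1.testBit p = true → p < x.1.1.2 ∧ ¬ ∃ w, w < x.2 ∧ Q p w) (cp_imp
        (cp_bool (by fun_prop)) (cp_and (cp_lt (by fun_prop) (by fun_prop))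
          (cp_wit hQ (by fun_prop) (by fun_prop)).not)) (by fun_prop)

theorem mem_fset_nat (x a : ℕ) : x ∈ fset a ↔ a.testBit x = true := digit_nat x a

theorem tle_nat (e : Bool) (hR : ComputablePred fun p : ℕ × ℕ => R p.1 p.2)
    (hQ : ComputablePred fun p : ℕ × ℕ => Q p.1 p.2) (hGc : Computable G) (hG : ∀ y, y < G y)
    {n m0 : ℕ} (h1 : ∀ m, ∃ x, m ≤ x ∧ ∃ b, Ch R Q G n x b)
    (h2 : ∀ x, m0 ≤ x → ∀ b, ¬ Ch R Q G (n + 1) x b) :
    TLE e {x : ℕ | ∃ w, Q x w} {x : ℕ | ∃ w, R x w} := by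
  have hre : REPred fun z : ℕ => Phi R Q G n m0 z.unpair.1.unpair.1.unpair.1.unpair.2
      z.unpair.1.unpair.1.unpair.2 z.unpair.2 :=
    RE.comp (re_Phi hR hQ hGc n m0) (f := fun z : ℕ =>
      (z.unpair.1.unpair.1.unpair.1.unpair.2, z.unpair.1.unpair.1.unpair.2, z.unpair.2))
      (by fun_prop)
  obtain ⟨φ, hφ, hsat⟩ := re_syn e (0 + 4) hre
  refine ⟨fun x y _ v => Phi R Q G n m0 x y v, ⟨0, φ, Fin.elim0, hφ, fun a i s t => ?_⟩,
    fun x y => ?_⟩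
  · rw [hsat]
    have : enc (0 + 4) (Fin.append Fin.elim0 ![a, i, s, t]) =
        Nat.pair (Nat.pair (Nat.pair (Nat.pair 0 a) i) s) t := rfl
    rw [this]
    simp only [Nat.unpair_pair]
  · have key := Phi_iff (R := R) (Q := Q) hG h1 h2 x y
    have e1 : (fset x ⊆ {x : ℕ | ∃ w, Q x w} ∧ fset y ⊆ {x : ℕ | ∃ w, Q x w}ᶜ) ↔
        ((∀ p, x.testBit p = true → ∃ w, Q p w) ∧
          (∀ p, y.testBit p = true → ¬ ∃ w, Q p w)) := by
      constructor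
      · rintro ⟨a, b⟩
        exact ⟨fun p hp => a ((mem_fset_nat _ _).2 hp), fun p hp => b ((mem_fset_nat _ _).2 hp)⟩
      · rintro ⟨a, b⟩
        exact ⟨fun p hp => a p ((mem_fset_nat _ _).1 hp), fun p hp => b p ((mem_fset_nat _ _).1 hp)⟩
    rw [e1, key]
    constructor
    · rintro ⟨v, hv, h⟩
      refine ⟨0, v, fun p hp => ?_, fun p hp => hv p ((mem_fset_nat _ _).1 hp), h⟩
      rw [mem_fset_nat] at hp
      simp at hp
    · rintro ⟨_, v, _, hv, h⟩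
      exact ⟨v, fun p hp => hv ((mem_fset_nat _ _).2 hp), h⟩

end

end Pool.Agent.H869R3.UP
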